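import Mathlib

set_option autoImplicit false

namespace Pool.Agent.H.MP_2744a5_an

open Filter Topology Set

theorem acyc {V : Type} (G : SimpleGraph V) (r : V → ℕ) (par : V → V)
    (h : ∀ v w, G.Adj v w → (w = par v ∧ r w < r v) ∨ (v = par w ∧ r v < r w)) : G.IsAcyclic := by
  classical
  intro v c hc
  obtain ⟨u, hu, hmax⟩ := Finset.exists_max_image c.support.toFinset r ⟨v, by simp⟩
  have hu' : u ∈ c.support := by simpa using hu
  have hc' := hc.rotate hu'
  set d := c.rotate u hu' with hd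
  have hs : ∀ x ∈ d.support, r x ≤ r u := by
    intro x hx
    apply hmax
    simpa [hd] using hx
  have hn := hc'.not_nil
  have a1 := d.adj_snd hn
  have a2 := (d.adj_penultimate hn).symm
  have b1 := hs _ (d.getVert_mem_support 1)
  have b2 := hs _ (d.getVert_mem_support (d.length - 1))
  apply hc'.snd_ne_penultimate
  rcases h _ _ a1 with ⟨e1, -⟩ | ⟨-, e1⟩
  · rcases h _ _ a2 with ⟨e2, -⟩ | ⟨-, e2⟩
    · rw [e1, e2]
    · exact absurd e2 (not_lt.2 b2)
  · exact absurd e1 (not_lt.2 b1)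

abbrev V := ℕ × ℕ

def par : V → V
  | (m, h + 1) => (m, h)
  | (m, 0) => (m - 1, 0)

def phi : V → V
  | (0, h) => (0, 2 * h + 1)
  | (1, h) => (0, 2 * h)
  | (m + 2, h) => (m + 1, h)

def D (f : V → ℂ) (v : V) : ℂ := if v = (0, 0) then f v else f v - f (par v)

def I (a : V → ℂ) (v : V) : ℂ :=
  ∑ i ∈ Finset.range (v.1 + 1), a (i, 0) + ∑ t ∈ Finset.range v.2, a (v.1, t + 1)

theorem D00 (f : V → ℂ) : D f (0, 0) = f (0, 0) := by simp [D]
theorem Ds (f : V → ℂ) (m : ℕ) : D f (m + 1, 0) = f (m + 1, 0) - f (m, 0) := by simp [D, par]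
theorem Dt (f : V → ℂ) (m h : ℕ) : D f (m, h + 1) = f (m, h + 1) - f (m, h) := by simp [D, par]

theorem DI (a : V → ℂ) : D (I a) = a := by
  funext ⟨m, h⟩
  rcases h with _ | h
  · rcases m with _ | m
    · simp [D00, I]
    · simp [Ds, I, Finset.sum_range_succ]
  · simp [Dt, I, Finset.sum_range_succ]

theorem D_add (f g : V → ℂ) (v : V) : D (f + g) v = D f v + D g v := by
  unfold D; split_ifs <;> simp; ring
theorem D_sub (f g : V → ℂ) (v : V) : D (f - g) v = D f v - D g v := by
  unfold D; split_ifs <;> simp; ring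
theorem D_smul (c : ℂ) (f : V → ℂ) (v : V) : D (c • f) v = c * D f v := by
  unfold D; split_ifs <;> simp; ring
theorem I_sub (a b : V → ℂ) : I (a - b) = I a - I b := by
  funext v; simp [I, Finset.sum_sub_distrib]; ring
theorem I_add (a b : V → ℂ) : I (a + b) = I a + I b := by
  funext v; simp [I, Finset.sum_add_distrib]; ring

theorem ID (f : V → ℂ) : I (D f) = f := by
  funext ⟨m, h⟩
  induction h with
  | zero =>
    induction m with
    | zero => simp [I, D00]
    | succ m ih =>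
      simp only [I, Finset.range_zero, Finset.sum_empty, add_zero] at ih ⊢
      rw [Finset.sum_range_succ, ih, Ds]
      ring
  | succ h ih =>
    simp only [I] at ih ⊢
    rw [Finset.sum_range_succ _ h, ← add_assoc, ih, Dt]
    ring

def pp : V → V
  | (0, 0) => (0, 0)
  | (0, h + 1) => (0, 2 * h + 3)
  | (1, 0) => (0, 1)
  | (1, h + 1) => (0, 2 * h + 2)
  | (m + 2, h) => (m + 1, h)

def qq : V → V
  | (0, 0) => (0, 1)
  | (0, h + 1) => (0, 2 * h + 2)
  | (1, 0) => (0, 1)
  | (1, h + 1) => (0, 2 * h + 1)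
  | (m + 2, h) => (m + 1, h)

theorem D_phi (f : V → ℂ) (v : V) : ‖D (f ∘ phi) v‖ ≤ ‖D f (pp v)‖ + ‖D f (qq v)‖ := by
  rcases v with ⟨_ | _ | m, _ | h⟩
  · refine le_trans (le_of_eq ?_) (norm_add_le _ _)
    simp [pp, qq, D00, Dt, phi]
  · refine le_trans (le_of_eq ?_) (norm_add_le _ _)
    simp only [pp, qq, Dt, phi, Function.comp]
    congr 1
    ring_nf
  · simp only [pp, qq, zero_add]
    rw [show ((1, 0) : V) = (0 + 1, 0) from rfl, Ds, show ((0, 1) : V) = (0, 0 + 1) from rfl, Dt,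
      norm_sub_rev]
    simp [phi]
  · refine le_trans (le_of_eq ?_) (norm_add_le _ _)
    simp only [pp, qq, Dt, phi, Function.comp, zero_add]
    congr 1
    ring_nf
  · simp only [pp, qq]
    rw [Ds, Ds]
    rcases m with _ | m <;> simp [phi]
  · simp [pp, qq, Dt, phi]

theorem bd_phi {f : V → ℂ} {c : ℝ} (h : ∀ v, ‖D f v‖ ≤ c) (v : V) : ‖D (f ∘ phi) v‖ ≤ 2 * c := by
  linarith [D_phi f v, h (pp v), h (qq v)]

theorem bd_iter {f : V → ℂ} {c : ℝ} (h : ∀ v, ‖D f v‖ ≤ c) (n : ℕ) :
    ∀ v, ‖D (f ∘ phi^[n]) v‖ ≤ 2 ^ n * c := by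
  induction n with
  | zero => simpa using h
  | succ n ih =>
    intro v
    have := bd_phi ih v
    rw [Function.iterate_succ, ← Function.comp_assoc, pow_succ]
    linarith

theorem fin_le (N : ℕ) : {v : V | v.1 + v.2 ≤ N}.Finite :=
  ((Set.finite_Iic N).prod (Set.finite_Iic N)).subset fun v hv =>
    ⟨le_trans (Nat.le_add_right _ _) hv, le_trans (Nat.le_add_left _ _) hv⟩

theorem tend_of {p : V → V} (h : ∀ v, v.1 + v.2 ≤ (p v).1 + (p v).2 + 1) :
    Tendsto p cofinite cofinite := by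
  refine Tendsto.cofinite_of_finite_preimage_singleton fun w => ?_
  refine (fin_le (w.1 + w.2 + 1)).subset fun v hv => ?_
  have := h v
  rw [show p v = w from hv] at this
  exact this

theorem tend_phi {f : V → ℂ} (h : Tendsto (D f) cofinite (𝓝 0)) :
    Tendsto (D (f ∘ phi)) cofinite (𝓝 0) := by
  have h1 : Tendsto pp cofinite cofinite := tend_of fun v => by
    rcases v with ⟨_ | _ | m, _ | h⟩ <;> simp [pp] <;> omega
  have h2 : Tendsto qq cofinite cofinite := tend_of fun v => by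
    rcases v with ⟨_ | _ | m, _ | h⟩ <;> simp [qq] <;> omega
  refine squeeze_zero_norm (D_phi f) ?_
  simpa using (h.comp h1).norm.add (h.comp h2).norm

theorem phi_bij : Function.Bijective phi := by
  constructor
  · rintro ⟨_ | _ | m, h⟩ ⟨_ | _ | m', h'⟩ e <;> simp [phi] at e ⊢ <;> omega
  · rintro ⟨_ | m, h⟩
    · rcases Nat.even_or_odd' h with ⟨k, rfl | rfl⟩
      exacts [⟨(1, k), rfl⟩, ⟨(0, k), rfl⟩]
    · exact ⟨(m + 2, h), rfl⟩

noncomputable def lam : ℂ := ((3 / 4 : ℝ) : ℂ)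

theorem norm_lam : ‖lam‖ = 3 / 4 := by simp [lam]

def P (g : V → ℂ) : Prop := ∀ ε : ℝ, 0 < ε → ∀ᶠ n in atTop, ∃ h : V → ℂ,
  (Function.support h).Finite ∧ (∀ v, ‖D h v‖ ≤ ε) ∧ ∀ v, ‖D (lam ^ n • h ∘ phi^[n] - g) v‖ ≤ ε

theorem P.add {f g : V → ℂ} (hf : P f) (hg : P g) : P (f + g) := by
  intro ε hε
  filter_upwards [hf _ (half_pos hε), hg _ (half_pos hε)] with n ⟨h, a1, a2, a3⟩ ⟨k, b1, b2, b3⟩
  refine ⟨h + k, (a1.union b1).subset (Function.support_add _ _), fun v => ?_, fun v => ?_⟩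
  · rw [D_add]
    linarith [norm_add_le (D h v) (D k v), a2 v, b2 v]
  · have : lam ^ n • (h + k) ∘ phi^[n] - (f + g) =
        (lam ^ n • h ∘ phi^[n] - f) + (lam ^ n • k ∘ phi^[n] - g) := by
      funext x; simp; ring
    rw [this, D_add]
    exact (norm_add_le _ _).trans (by linarith [a3 v, b3 v])

theorem P.smul {f : V → ℂ} (hf : P f) (c : ℂ) : P (c • f) := by
  intro ε hε
  have h0 : 0 < ‖c‖ + 1 := by positivity
  have key : ∀ x : ℝ, x ≤ ε / (‖c‖ + 1) → 0 ≤ x → ‖c‖ * x ≤ ε := by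
    intro x hx hx0
    rw [le_div_iff₀ h0] at hx
    nlinarith
  filter_upwards [hf _ (div_pos hε h0)] with n ⟨h, a1, a2, a3⟩
  refine ⟨c • h, a1.subset (Function.support_const_smul_subset _ _), fun v => ?_, fun v => ?_⟩
  · rw [D_smul, norm_mul]
    exact key _ (a2 v) (norm_nonneg _)
  · have : lam ^ n • (c • h) ∘ phi^[n] - c • f = c • (lam ^ n • h ∘ phi^[n] - f) := by
      funext x; simp; ring
    rw [this, D_smul, norm_mul]
    exact key _ (a3 v) (norm_nonneg _)

theorem P.comp {f : V → ℂ} (hf : P f) : P (f ∘ phi) := by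
  intro ε hε
  obtain ⟨N, hN⟩ := eventually_atTop.1 (hf _ (half_pos hε))
  filter_upwards [eventually_ge_atTop (N + 1)] with n hn
  obtain ⟨n, rfl⟩ : ∃ k, n = k + 1 := ⟨n - 1, by omega⟩
  obtain ⟨h, a1, a2, a3⟩ := hN n (by omega)
  have hl : lam ≠ 0 := by simp [lam]
  refine ⟨lam⁻¹ • h, a1.subset (Function.support_const_smul_subset _ _), fun v => ?_, fun v => ?_⟩
  · rw [D_smul, norm_mul, norm_inv, norm_lam]
    linarith [a2 v]
  · have : lam ^ (n + 1) • (lam⁻¹ • h) ∘ phi^[n + 1] - f ∘ phi =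
        (lam ^ n • h ∘ phi^[n] - f) ∘ phi := by
      funext x
      simp only [Pi.sub_apply, Pi.smul_apply, Function.comp_apply, smul_eq_mul,
        Function.iterate_succ_apply]
      field_simp
      ring
    rw [this]
    linarith [bd_phi a3 v]

theorem P.lim {f : V → ℂ} (hf : ∀ ε : ℝ, 0 < ε → ∃ g, P g ∧ ∀ v, ‖D (g - f) v‖ ≤ ε) : P f := by
  intro ε hε
  obtain ⟨g, hg, hg'⟩ := hf _ (half_pos hε)
  filter_upwards [hg _ (half_pos hε)] with n ⟨h, a1, a2, a3⟩
  refine ⟨h, a1, fun v => (a2 v).trans (by linarith), fun v => ?_⟩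
  have : lam ^ n • h ∘ phi^[n] - f = (lam ^ n • h ∘ phi^[n] - g) + (g - f) := by abel
  rw [this, D_add]
  exact (norm_add_le _ _).trans (by linarith [a3 v, hg' v])

theorem it0 (n h : ℕ) : phi^[n] (0, h) = (0, 2 ^ n * (h + 1) - 1) := by
  induction n with
  | zero => simp
  | succ n ih =>
    rw [Function.iterate_succ_apply', ih, phi, pow_succ]
    have : 0 < 2 ^ n * (h + 1) := by positivity
    congr 1
    rw [mul_right_comm]
    omega

theorem it1 (n j h : ℕ) : phi^[n] (n + j + 1, h) = (j + 1, h) := by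
  induction n with
  | zero => simp
  | succ n ih => rw [Function.iterate_succ_apply, show n + 1 + j + 1 = n + j + 2 by ring, phi, ih]

theorem it2 (s j h : ℕ) : phi^[s + 1 + j] (j + 1, h) = (0, 2 ^ s * (2 * h + 1) - 1) := by
  have := it1 j 0 h
  rw [Function.iterate_add_apply, this, Function.iterate_succ_apply, zero_add, phi, it0]

noncomputable def psi (d0 L d : ℝ) : ℝ := max 0 (1 - Real.log (1 + d / d0) / L)

theorem psi_le {d0 L : ℝ} (h0 : 0 < d0) (hL : 0 < L) {x y t : ℝ} (hx : 0 ≤ x) (hy : 0 ≤ y)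
    (h1 : d0 + x ≤ (1 + t) * (d0 + y)) (h2 : d0 + y ≤ (1 + t) * (d0 + x)) :
    |psi d0 L x - psi d0 L y| ≤ t / L := by
  have key : ∀ x y : ℝ, 0 ≤ x → 0 ≤ y → d0 + x ≤ (1 + t) * (d0 + y) →
      Real.log (1 + x / d0) - Real.log (1 + y / d0) ≤ t := by
    intro x y hx hy h
    rw [← Real.log_div (by positivity) (by positivity)]
    refine (Real.log_le_sub_one_of_pos (by positivity)).trans ?_
    rw [sub_le_iff_le_add, div_le_iff₀ (by positivity)]
    have : 1 + x / d0 = (d0 + x) / d0 := by field_simp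
    rw [this, div_le_iff₀ h0]
    have : (t + 1) * (1 + y / d0) * d0 = (1 + t) * (d0 + y) := by field_simp; ring
    rwa [this]
  unfold psi
  refine (abs_max_sub_max_le_max _ _ _ _).trans (max_le ?_ ?_)
  · have := key x y hx hy h1
    have := key y x hy hx h2
    simp only [sub_self, abs_zero]
    exact div_nonneg (by linarith) hL.le
  · rw [sub_sub_sub_cancel_left, ← sub_div, abs_div, abs_of_pos hL]
    refine div_le_div_of_nonneg_right (abs_le.2 ⟨?_, ?_⟩) hL.le
    · linarith [key x y hx hy h1]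
    · exact key y x hy hx h2

theorem psi_zero {d0 L d : ℝ} (h0 : 0 < d0) (hL : 0 < L) (h : d0 * Real.exp L ≤ d) :
    psi d0 L d = 0 := by
  unfold psi
  refine max_eq_left ?_
  rw [sub_nonpos, le_div_iff₀ hL, one_mul]
  have h1 : Real.exp L ≤ d / d0 := by rwa [le_div_iff₀ h0, mul_comm]
  have := Real.exp_pos L
  rw [Real.le_log_iff_exp_le (by linarith)]
  linarith

theorem P_tooth (c : ℕ) : P (Pi.single (0, c) 1) := by
  intro ε hε
  set L : ℝ := 2 / ε with hL
  have hL0 : 0 < L := by positivity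
  have he := Real.exp_pos L
  have ht : Tendsto (fun n : ℕ => (2 / 3 : ℝ) ^ n * (2 * Real.exp L / L)) atTop (𝓝 0) := by
    simpa using (tendsto_pow_atTop_nhds_zero_of_lt_one (r := (2 / 3 : ℝ)) (by norm_num)
      (by norm_num)).mul_const (2 * Real.exp L / L)
  filter_upwards [ht.eventually (gt_mem_nhds hε), eventually_ge_atTop 1] with n hn hn1
  set d0 : ℝ := 2 ^ n / (2 * Real.exp L) with hd0
  have h0 : 0 < d0 := by positivity
  set B : ℕ → ℝ := fun y => psi d0 L |(y : ℝ) - 2 ^ n * (c + 1)| with hB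
  have hz : ∀ y : ℕ, (2 : ℝ) ^ n ≤ 2 * |(y : ℝ) - 2 ^ n * (c + 1)| → B y = 0 := by
    intro y hy
    refine psi_zero h0 hL0 ?_
    have : d0 * Real.exp L = 2 ^ n / 2 := by rw [hd0]; field_simp
    rw [this]
    linarith
  have hp : (0 : ℝ) < 2 ^ n := by positivity
  have hc0 : (0 : ℝ) ≤ c := c.cast_nonneg
  have hz' : ∀ y : ℕ, 2 * (y : ℝ) ≤ 2 ^ n → B y = 0 := by
    intro y hy
    apply hz
    have := neg_le_abs ((y : ℝ) - 2 ^ n * (c + 1))
    nlinarith
  have hl : lam ≠ 0 := by simp [lam]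
  set g : V → ℂ := fun v => if v.1 = 0 then (B (v.2 + 1) : ℂ) else 0 with hg
  refine ⟨(lam ^ n)⁻¹ • g, ?_, fun v => ?_, fun v => ?_⟩
  · refine (fin_le (2 ^ n * (c + 2))).subset fun v hv => ?_
    by_contra h1
    apply hv
    have h2 : 2 ^ n * (c + 2) < v.1 + v.2 := not_le.1 h1
    simp only [hg, Pi.smul_apply]
    split_ifs with h3
    · rw [hz, Complex.ofReal_zero, smul_zero]
      rw [h3, zero_add] at h2
      have h4 : (2 : ℝ) ^ n * (c + 2) < v.2 := by exact_mod_cast h2
      have := le_abs_self (((v.2 + 1 : ℕ) : ℝ) - 2 ^ n * (c + 1))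
      push_cast at this ⊢
      nlinarith
    · simp
  · have b1 : B 1 = 0 := by
      apply hz'
      have : (2 : ℝ) ^ 1 ≤ 2 ^ n := pow_le_pow_right₀ (by norm_num) hn1
      simpa using this
    rw [D_smul]
    rcases v with ⟨m, _ | h⟩
    · rcases m with _ | _ | m
      · simp [D00, hg, b1, hε.le]
      · rw [Ds]
        simp [hg, b1, hε.le]
      · simp [Ds, hg, hε.le]
    · rcases m with _ | m
      · rw [Dt, norm_mul, norm_inv, norm_pow, norm_lam]
        simp only [hg, if_true]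
        rw [← Complex.ofReal_sub, Complex.norm_real, Real.norm_eq_abs]
        have h1 : |B (h + 1 + 1) - B (h + 1)| ≤ (1 / d0) / L := by
          have a := abs_sub_abs_le_abs_sub (((h + 1 + 1 : ℕ) : ℝ) - 2 ^ n * (c + 1))
            (((h + 1 : ℕ) : ℝ) - 2 ^ n * (c + 1))
          have b := abs_sub_abs_le_abs_sub (((h + 1 : ℕ) : ℝ) - 2 ^ n * (c + 1))
            (((h + 1 + 1 : ℕ) : ℝ) - 2 ^ n * (c + 1))
          rw [sub_sub_sub_cancel_right] at a b
          rw [show ((h + 1 + 1 : ℕ) : ℝ) - ((h + 1 : ℕ) : ℝ) = 1 by push_cast; ring, abs_one] at a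
          rw [show ((h + 1 : ℕ) : ℝ) - ((h + 1 + 1 : ℕ) : ℝ) = -1 by push_cast; ring, abs_neg,
            abs_one] at b
          have key : ∀ x y : ℝ, 0 ≤ y → x - y ≤ 1 → d0 + x ≤ (1 + 1 / d0) * (d0 + y) := by
            intro x y hy hxy
            have : (1 + 1 / d0) * (d0 + y) = d0 + y + 1 + y / d0 := by field_simp; ring
            rw [this]
            have : 0 ≤ y / d0 := by positivity
            linarith
          exact psi_le h0 hL0 (abs_nonneg _) (abs_nonneg _) (key _ _ (abs_nonneg _) a)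
            (key _ _ (abs_nonneg _) b)
        refine le_trans (mul_le_mul_of_nonneg_left h1 (by positivity)) (le_trans (le_of_eq ?_) hn.le)
        rw [hd0, show (2 / 3 : ℝ) = (3 / 4)⁻¹ / 2 by norm_num, div_pow _ 2, inv_pow]
        field_simp
      · simp [Dt, hg, hε.le]
  · have e : lam ^ n • ((lam ^ n)⁻¹ • g) ∘ phi^[n] = g ∘ phi^[n] := by
      funext x
      simp [pow_ne_zero n hl]
    rw [e]
    set H : V → ℂ := g ∘ phi^[n] - Pi.single (0, c) 1 with hH
    have H0 : ∀ h, H (0, h) = 0 := by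
      intro h
      have h1 : 0 < 2 ^ n * (h + 1) := by positivity
      simp only [hH, hg, Pi.sub_apply, Function.comp_apply, it0, if_true, Nat.sub_add_cancel h1]
      by_cases hc : h = c
      · subst hc
        simp [hB, psi]
      · rw [hz, Pi.single_eq_of_ne (by simpa using hc)]
        · simp
        · push_cast
          rw [← mul_sub, abs_mul, abs_of_pos hp, add_sub_add_right_eq_sub]
          have : (1 : ℝ) ≤ |(h : ℝ) - c| := by
            have : ((h : ℤ) - c) ≠ 0 := by omega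
            exact_mod_cast Int.one_le_abs this
          nlinarith
    have H1 : ∀ j h, n ≤ j → H (j + 1, h) = 0 := by
      intro j h hj
      obtain ⟨j, rfl⟩ := Nat.exists_eq_add_of_le hj
      simp [hH, hg, it1]
    have H2 : ∀ s j h, s + 1 + j = n → H (j + 1, h) = B (2 ^ s * (2 * h + 1)) := by
      intro s j h hj
      have h1 : 0 < 2 ^ s * (2 * h + 1) := by positivity
      simp only [hH, hg, Pi.sub_apply, Function.comp_apply, ← hj, it2, if_true,
        Nat.sub_add_cancel h1]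
      simp
    have H3 : ∀ j, H (j, 0) = 0 := by
      rintro (_ | j)
      · exact H0 0
      · by_cases hj : n ≤ j
        · exact H1 j 0 hj
        · rw [H2 (n - 1 - j) j 0 (by omega), hz', Complex.ofReal_zero]
          have : (2 : ℝ) ^ (n - 1 - j + 1) ≤ 2 ^ n := pow_le_pow_right₀ (by norm_num) (by omega)
          rw [pow_succ] at this
          push_cast
          linarith
    rcases v with ⟨m, _ | h⟩
    · rcases m with _ | m
      · simp [D00, H3, hε.le]
      · simp [Ds, H3, hε.le]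
    · rw [Dt]
      rcases m with _ | j
      · simp [H0, hε.le]
      · by_cases hj : n ≤ j
        · simp [H1 j _ hj, hε.le]
        · obtain ⟨s, hs⟩ : ∃ s, s + 1 + j = n := ⟨n - 1 - j, by omega⟩
          rw [H2 s j _ hs, H2 s j _ hs, ← Complex.ofReal_sub, Complex.norm_real, Real.norm_eq_abs]
          have e1 : ∀ h : ℕ, |((2 ^ s * (2 * h + 1) : ℕ) : ℝ) - 2 ^ n * (c + 1)| =
              2 ^ s * ((|2 * ((h : ℤ) - 2 ^ j * (c + 1)) + 1| : ℤ) : ℝ) := by
            intro h
            push_cast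
            rw [← hs, ← abs_of_pos (show (0 : ℝ) < 2 ^ s by positivity), ← abs_mul,
              abs_of_pos (show (0 : ℝ) < 2 ^ s by positivity)]
            congr 1
            ring
          have key : ∀ x y : ℤ, 0 ≤ y → x ≤ 3 * y →
              d0 + 2 ^ s * (x : ℝ) ≤ (1 + 2) * (d0 + 2 ^ s * (y : ℝ)) := by
            intro x y hy hxy
            have h1 : (x : ℝ) ≤ 3 * y := by exact_mod_cast hxy
            have h2 : (0 : ℝ) < 2 ^ s := by positivity
            nlinarith
          have := psi_le h0 hL0 (t := 2) (abs_nonneg (((2 ^ s * (2 * (h + 1) + 1) : ℕ) : ℝ) -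
            2 ^ n * (c + 1))) (abs_nonneg (((2 ^ s * (2 * h + 1) : ℕ) : ℝ) - 2 ^ n * (c + 1))) ?_ ?_
          · refine this.trans (le_of_eq ?_)
            rw [hL]
            field_simp
          · rw [e1, e1]
            refine key _ _ (abs_nonneg _) ?_
            push_cast
            generalize (2 : ℤ) ^ j * (c + 1) = z
            rcases abs_cases (2 * ((h : ℤ) + 1 - z) + 1) with a | a <;>
              rcases abs_cases (2 * ((h : ℤ) - z) + 1) with b | b <;> omega
          · rw [e1, e1]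
            refine key _ _ (abs_nonneg _) ?_
            push_cast
            generalize (2 : ℤ) ^ j * (c + 1) = z
            rcases abs_cases (2 * ((h : ℤ) + 1 - z) + 1) with a | a <;>
              rcases abs_cases (2 * ((h : ℤ) - z) + 1) with b | b <;> omega

theorem P_single (v : V) : P (Pi.single v 1) := by
  obtain ⟨m, h⟩ := v
  induction m generalizing h with
  | zero => exact P_tooth h
  | succ m ih =>
    have e : (Pi.single (m + 1, h) 1 : V → ℂ) = Pi.single (phi (m + 1, h)) 1 ∘ phi := by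
      funext x
      simp only [Function.comp_apply, Pi.single_apply, phi_bij.1.eq_iff]
    rw [e]
    rcases m with _ | m
    · exact (P_tooth _).comp
    · exact (ih h).comp

theorem P_zero : P 0 := by simpa using (P_single (0, 0)).smul 0

theorem P_fin {g : V → ℂ} (hg : (Function.support g).Finite) : P g := by
  have e : g = ∑ v ∈ hg.toFinset, g v • (Pi.single v 1 : V → ℂ) := by
    funext x
    simp only [Finset.sum_apply, Pi.smul_apply, Pi.single_apply, smul_eq_mul, mul_ite, mul_one,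
      mul_zero, Finset.sum_ite_eq, Set.Finite.mem_toFinset, Function.mem_support]
    split_ifs with h
    · rfl
    · simpa using h
  rw [e]
  exact Finset.sum_induction _ P (fun _ _ => P.add) P_zero fun v _ => (P_single v).smul _

theorem I_bdd {a : V → ℂ} (ha : (Function.support a).Finite) : ∃ M, ∀ v, ‖I a v‖ ≤ M := by
  refine ⟨∑ v ∈ ha.toFinset, ‖a v‖ + ∑ v ∈ ha.toFinset, ‖a v‖, fun v => ?_⟩
  have key : ∀ (s : Finset ℕ) (f : ℕ → V), Function.Injective f →
      ‖∑ i ∈ s, a (f i)‖ ≤ ∑ v ∈ ha.toFinset, ‖a v‖ := by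
    intro s f hf
    refine (norm_sum_le _ _).trans ?_
    rw [← Finset.sum_image (f := fun v => ‖a v‖) fun x _ y _ h => hf h]
    rw [← Finset.sum_filter_ne_zero]
    refine Finset.sum_le_sum_of_subset_of_nonneg ?_ fun _ _ _ => norm_nonneg _
    intro x hx
    simpa using (Finset.mem_filter.1 hx).2
  refine (norm_add_le _ _).trans (add_le_add (key _ (fun i => (i, 0)) ?_)
    (key _ (fun t => (v.1, t + 1)) ?_))
  · intro x y h
    simpa using h
  · intro x y h
    simpa using h

theorem P_I {a : V → ℂ} (ha : (Function.support a).Finite) : P (I a) := by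
  obtain ⟨M, hM⟩ := I_bdd ha
  obtain ⟨R, hR⟩ := (ha.image fun v : V => v.1 + v.2).bddAbove
  refine P.lim fun ε hε => ?_
  have hM0 : 0 < M + 1 := by linarith [norm_nonneg (I a (0, 0)), hM (0, 0)]
  set δ : ℝ := ε / (M + 1) with hδ
  have hδ0 : 0 < δ := by positivity
  set ρ : V → ℝ := fun v => min 1 (max 0 (δ * (((v.1 + v.2 : ℕ) : ℝ) - R))) with hρ
  refine ⟨fun v => (1 - ρ v) * I a v, P_fin ?_, fun v => ?_⟩
  · obtain ⟨N, hN⟩ := exists_nat_ge (R + 1 / δ)
    refine (fin_le N).subset fun v hv => ?_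
    by_contra h
    apply hv
    have h1 : (N : ℝ) ≤ ((v.1 + v.2 : ℕ) : ℝ) := by exact_mod_cast (not_le.1 h).le
    have h2 : ρ v = 1 := by
      refine min_eq_left (le_max_of_le_right ?_)
      have : δ * (1 / δ) = 1 := by field_simp
      nlinarith
    simp [h2]
  · have hz : ∀ v : V, v.1 + v.2 ≤ R → ρ v = 0 := by
      intro v hv
      have : ((v.1 + v.2 : ℕ) : ℝ) ≤ R := by exact_mod_cast hv
      simp only [hρ]
      rw [max_eq_left (by nlinarith), min_eq_right zero_le_one]
    by_cases hv : v = (0, 0)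
    · subst hv
      simp [D00, hz, hε.le]
    · have e1 := congrFun (DI a) v
      simp only [D, if_neg hv, Pi.sub_apply] at e1 ⊢
      have e2 : (ρ v : ℂ) * a v = 0 := by
        by_cases h : a v = 0
        · simp [h]
        · rw [hz v (hR ⟨v, h, rfl⟩)]
          simp
      have e3 : (1 - ρ v) * I a v - I a v - ((1 - ρ (par v)) * I a (par v) - I a (par v)) =
          ((ρ (par v) - ρ v : ℝ) : ℂ) * I a (par v) := by
        push_cast
        linear_combination -e2 - (ρ v : ℂ) * e1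
      rw [e3, norm_mul, Complex.norm_real, Real.norm_eq_abs]
      have e4 : |ρ (par v) - ρ v| ≤ δ := by
        refine (abs_min_sub_min_le_max _ _ _ _).trans (max_le (by simpa using hδ0.le) ?_)
        refine (abs_max_sub_max_le_max _ _ _ _).trans (max_le (by simpa using hδ0.le) ?_)
        have : (((par v).1 + (par v).2 : ℕ) : ℝ) + 1 = ((v.1 + v.2 : ℕ) : ℝ) := by
          rcases v with ⟨_ | m, _ | h⟩
          · exact absurd rfl hv
          all_goals simp [par]; try ring
        rw [← this, ← mul_sub, abs_mul, abs_of_pos hδ0]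
        simp
      refine (mul_le_mul e4 (hM _) (norm_nonneg _) hδ0.le).trans ?_
      rw [hδ, div_mul_eq_mul_div, div_le_iff₀ hM0]
      nlinarith

abbrev X := ZeroAtInftyContinuousMap V ℂ

theorem X_le (a : X) (v : V) : ‖a v‖ ≤ ‖a‖ := a.toBCF.norm_coe_le_norm v

theorem X_norm (a : X) {c : ℝ} (hc : 0 ≤ c) (h : ∀ v, ‖a v‖ ≤ c) : ‖a‖ ≤ c :=
  (BoundedContinuousFunction.norm_le (f := a.toBCF) hc).mpr h

theorem X_tend (a : X) : Tendsto a cofinite (𝓝 0) := by
  have := a.zero_at_infty'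
  rwa [cocompact_eq_cofinite] at this

def mkX (f : V → ℂ) (hf : (Function.support f).Finite) : X where
  toFun := f
  continuous_toFun := continuous_of_discreteTopology
  zero_at_infty' := by
    rw [cocompact_eq_cofinite]
    exact tendsto_cofinite_pure_iff.2 hf |>.mono_right (pure_le_nhds 0)

theorem trunc {a : V → ℂ} (ha : Tendsto a cofinite (𝓝 0)) {ε : ℝ} (hε : 0 < ε) :
    ∃ b : V → ℂ, (Function.support b).Finite ∧ ∀ v, ‖a v - b v‖ ≤ ε := by
  have := (NormedAddGroup.tendsto_nhds_zero.1 ha) ε hε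
  refine ⟨fun v => if ‖a v‖ < ε then 0 else a v, (mem_cofinite.1 this).subset fun v hv h => ?_,
    fun v => ?_⟩
  · exact hv (if_pos h)
  · beta_reduce
    split_ifs with h
    · simpa using h.le
    · simpa using hε.le

theorem D_fin {h : V → ℂ} (hh : (Function.support h).Finite) :
    (Function.support (D h)).Finite := by
  obtain ⟨R, hR⟩ := (hh.image fun v : V => v.1 + v.2).bddAbove
  refine (fin_le (R + 1)).subset fun v hv => ?_
  by_contra h1
  apply hv
  have h2 : ∀ w : V, R < w.1 + w.2 → h w = 0 := by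
    intro w hw
    by_contra h3
    exact absurd (hR ⟨w, h3, rfl⟩) (not_le.2 hw)
  have h3 : R + 1 < v.1 + v.2 := not_le.1 h1
  unfold D
  rw [h2 v (by omega), h2 (par v)]
  · simp
  · rcases v with ⟨m, _ | t⟩ <;> simp [par] at h3 ⊢ <;> omega

theorem hyper : ∃ f : V → ℂ, Tendsto (D f) cofinite (𝓝 0) ∧ ∀ g : V → ℂ,
    Tendsto (D g) cofinite (𝓝 0) → ∀ ε : ℝ, 0 < ε →
      ∃ n, ∀ v, ‖D (lam ^ n • f ∘ phi^[n] - g) v‖ ≤ ε := by
  let em : (V →₀ ℚ × ℚ) → V → ℂ := fun b v => ⟨(b v).1, (b v).2⟩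
  have hem : ∀ b, (Function.support (em b)).Finite := fun b =>
    b.support.finite_toSet.subset fun v hv => by
      by_contra h
      apply hv
      have : b v = 0 := by simpa using h
      simp only [em, this]
      apply Complex.ext <;> simp
  let O : (V →₀ ℚ × ℚ) × ℕ → Set X := fun z => {a | ∃ n, ∃ c < 1 / ((z.2 : ℝ) + 1),
    ∀ v, ‖D (lam ^ n • I a ∘ phi^[n] - I (em z.1)) v‖ ≤ c}
  have hO : ∀ z, IsOpen (O z) := by
    intro z
    rw [Metric.isOpen_iff]
    rintro a ⟨n, c, hc, h⟩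
    have hp : (0 : ℝ) < 2 ^ n := by positivity
    refine ⟨(1 / ((z.2 : ℝ) + 1) - c) / 2 ^ n, div_pos (by linarith) hp, fun a' ha' => ?_⟩
    rw [mem_ball_iff_norm, lt_div_iff₀ hp] at ha'
    refine ⟨n, c + 2 ^ n * ‖a' - a‖, by linarith, fun v => ?_⟩
    have e : lam ^ n • I a' ∘ phi^[n] - I (em z.1) = (lam ^ n • I a ∘ phi^[n] - I (em z.1)) +
        lam ^ n • I (⇑(a' - a)) ∘ phi^[n] := by
      rw [ZeroAtInftyContinuousMap.coe_sub, I_sub]
      funext x; simp; ring
    rw [e, D_add]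
    refine (norm_add_le _ _).trans (add_le_add (h v) ?_)
    rw [D_smul, norm_mul, norm_pow, norm_lam]
    have h1 := bd_iter (f := I ⇑(a' - a)) (c := ‖a' - a‖) (by rw [DI]; exact X_le _) n v
    have h2 : (3 / 4 : ℝ) ^ n ≤ 1 := pow_le_one₀ (by norm_num) (by norm_num)
    nlinarith [norm_nonneg (D (I ⇑(a' - a) ∘ phi^[n]) v)]
  have hD : ∀ z, Dense (O z) := by
    intro z
    rw [Metric.dense_iff]
    intro a δ hδ
    obtain ⟨a', h1, h2⟩ := trunc (X_tend a) (show 0 < δ / 3 by positivity)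
    obtain ⟨M, hM⟩ := I_bdd h1
    set η : ℝ := 1 / ((z.2 : ℝ) + 1) with hη
    have hη0 : 0 < η := by positivity
    have ht : Tendsto (fun n : ℕ => (3 / 4 : ℝ) ^ n * (2 * M)) atTop (𝓝 0) := by
      simpa using (tendsto_pow_atTop_nhds_zero_of_lt_one (r := (3 / 4 : ℝ)) (by norm_num)
        (by norm_num)).mul_const (2 * M)
    obtain ⟨n, ⟨h, b1, b2, b3⟩, hn⟩ := ((P_I (hem z.1) (min (δ / 3) (η / 3)) (by positivity)).and
      (ht.eventually (gt_mem_nhds (show 0 < η / 3 by positivity)))).exists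
    refine ⟨mkX (a' + D h) ((h1.union (D_fin b1)).subset (Function.support_add _ _)), ?_, n,
      2 * η / 3, by linarith, fun v => ?_⟩
    · rw [mem_ball_iff_norm]
      refine lt_of_le_of_lt (X_norm _ (c := 2 * δ / 3) (by positivity) fun v => ?_) (by linarith)
      have e : (mkX (a' + D h) ((h1.union (D_fin b1)).subset (Function.support_add _ _)) - a) v =
          D h v - (a v - a' v) := by
        show a' v + D h v - a v = _
        ring
      rw [e]
      linarith [norm_sub_le (D h v) (a v - a' v), h2 v, b2 v, min_le_left (δ / 3) (η / 3)]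
    · show ‖D (lam ^ n • I (a' + D h) ∘ phi^[n] - I (em z.1)) v‖ ≤ _
      have e : lam ^ n • I (a' + D h) ∘ phi^[n] - I (em z.1) =
          (lam ^ n • h ∘ phi^[n] - I (em z.1)) + lam ^ n • I a' ∘ phi^[n] := by
        rw [I_add, ID]
        funext x; simp; ring
      rw [e, D_add]
      refine (norm_add_le _ _).trans ?_
      have h3 : ‖D (I a' ∘ phi^[n]) v‖ ≤ 2 * M := by
        have hM' : ∀ w, ‖(I a' ∘ phi^[n]) w‖ ≤ M := fun w => hM _
        generalize I a' ∘ phi^[n] = F at hM'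
        unfold D
        have := norm_nonneg (F v)
        split_ifs
        · linarith [hM' v]
        · exact (norm_sub_le _ _).trans (by linarith [hM' v, hM' (par v)])
      rw [D_smul, norm_mul, norm_pow, norm_lam]
      have h4 := mul_le_mul_of_nonneg_left h3 (show (0 : ℝ) ≤ (3 / 4) ^ n by positivity)
      linarith [b3 v, min_le_right (δ / 3) (η / 3)]
  obtain ⟨a, ha⟩ := (dense_iInter_of_isOpen hO hD).nonempty
  refine ⟨I a, by rw [DI]; exact X_tend a, fun g hg ε hε => ?_⟩
  obtain ⟨g', g1, g2⟩ := trunc hg (show 0 < ε / 3 by positivity)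
  have hq : ∀ v, ∃ q : ℚ × ℚ, ‖(⟨q.1, q.2⟩ : ℂ) - g' v‖ ≤ ε / 3 ∧ (g' v = 0 → q = 0) := by
    intro v
    by_cases h : g' v = 0
    · refine ⟨0, ?_, fun _ => rfl⟩
      have : (⟨((0 : ℚ × ℚ).1 : ℝ), ((0 : ℚ × ℚ).2 : ℝ)⟩ : ℂ) = 0 := by apply Complex.ext <;> simp
      rw [this, h]
      simp
      positivity
    · obtain ⟨x, hx⟩ := exists_rat_near (g' v).re (show 0 < ε / 6 by positivity)
      obtain ⟨y, hy⟩ := exists_rat_near (g' v).im (show 0 < ε / 6 by positivity)
      refine ⟨(x, y), (Complex.norm_le_abs_re_add_abs_im _).trans ?_, fun h' => absurd h' h⟩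
      rw [abs_sub_comm] at hx hy
      simp only [Complex.sub_re, Complex.sub_im]
      linarith
  choose q q1 q2 using hq
  obtain ⟨k, hk⟩ := exists_nat_one_div_lt (show 0 < ε / 3 by positivity)
  obtain ⟨n, c, hc, h⟩ := mem_iInter.1 ha (Finsupp.ofSupportFinite q (g1.subset fun v hv h =>
    hv (q2 v h)), k)
  refine ⟨n, fun v => ?_⟩
  set b := Finsupp.ofSupportFinite q (g1.subset fun v hv h => hv (q2 v h)) with hb
  have e : lam ^ n • I a ∘ phi^[n] - g = (lam ^ n • I a ∘ phi^[n] - I (em b)) + (I (em b) - g) := by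
    abel
  rw [e, D_add, D_sub (I (em b)), DI]
  refine (norm_add_le _ _).trans ?_
  have h1 : ‖em b v - D g v‖ ≤ ‖em b v - g' v‖ + ‖D g v - g' v‖ := by
    have := norm_sub_le (em b v - g' v) (D g v - g' v)
    rwa [sub_sub_sub_cancel_right] at this
  have h2 : ‖em b v - g' v‖ ≤ ε / 3 := q1 v
  linarith [h v, g2 v]

end Pool.Agent.H.MP_2744a5_an
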